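import Mathlib

namespace Pool.Agent.Results.MP_0634a4_nt.Disproof

/-- The `l`-sequence: `u 0 = 0`, `u 1 = 1`, `u (m+2) = l * u (m+1) - u m`. -/
def u (l : ℤ) : ℕ → ℤ
  | 0 => 0
  | 1 => 1
  | m + 2 => l * u l (m + 1) - u l m

/-- The tail sum of odd powers `S_k(j,n)`, the sum of `u_i^(2k-1)` over `j ≤ i ≤ n`. -/
def S (l : ℤ) (k j n : ℕ) : ℤ := ∑ i ∈ Finset.Icc j n, u l i ^ (2 * k - 1)

/-- `P_{n,k}`, as a rational number. -/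
def P (l : ℤ) (n k : ℕ) : ℚ := ∏ j ∈ Finset.Icc 1 n, ((S l k j n : ℚ) / (u l j : ℚ))

/-- `R_{n,k}`, as a rational number. -/
def R (l : ℤ) (n k : ℕ) : ℚ := (S l k 1 n : ℚ) / (S l 1 1 n : ℚ)

/-- `T_{n,k}`, as a rational number. -/
def T (l : ℤ) (n k : ℕ) : ℚ :=
  ((∑ i ∈ Finset.Icc 1 n, u l i ^ (3 * (4 * k - 3)) : ℤ) : ℚ) /
    ((∑ i ∈ Finset.Icc 1 n, u l i ^ 3 : ℤ) : ℚ)

/-- A rational number is an integer. -/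
def IsInt (x : ℚ) : Prop := ∃ z : ℤ, (z : ℚ) = x

theorem num_val : (∑ i ∈ Finset.Icc 1 10, u 2 i ^ (3 * (4 * 5 - 3)) : ℤ) % 3025 ≠ 0 := by
  decide +kernel

theorem den_val : (∑ i ∈ Finset.Icc 1 10, u 2 i ^ 3 : ℤ) = 3025 := by
  decide +kernel

theorem result : ¬ ((∀ l : ℤ, 2 ≤ l → ∀ n k : ℕ, 1 ≤ n → 1 ≤ k →
      IsInt (P l n k) ∧ IsInt (R l n k)) ∧
    (∀ n k : ℕ, 1 ≤ n → 1 ≤ k → IsInt (T 2 n k))) := by
  rintro ⟨-, h⟩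
  obtain ⟨z, hz⟩ := h 10 5 (by norm_num) (by norm_num)
  rw [T, den_val, eq_div_iff (by norm_num)] at hz
  have h1 : z * 3025 = ∑ i ∈ Finset.Icc 1 10, u 2 i ^ (3 * (4 * 5 - 3)) := by exact_mod_cast hz
  apply num_val
  rw [← h1]
  exact Int.mul_emod_left z 3025

end Pool.Agent.Results.MP_0634a4_nt.Disproof
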